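import Pool.Agent.V11252.DMB.Layer

/-! MP_ec2393_nt: the elements of the double shuffle Lie algebra `dm` are determined by their
coefficients at the ballot words; the filtration of `dm_N` by the number of letters `x₀` vanishes
from `N / 2` on.

Uses the work of helper19, helper759 and others on `dm`. -/

set_option autoImplicit false

namespace Pool.Agent.Results.MP_ec2393_nt.BallotWords

open Pool.Agent.H777R4.DM

/-- A ballot word: it ends with `x₁`, and no prefix has more letters `x₀` than letters `x₁`. -/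
def Ballot (u : List (Fin 2)) : Prop :=
  u.getLast? = some 1 ∧ ∀ p, p <+: u → p.count 0 ≤ p.count 1

/-- Let `ψ` be an element of `dm` of weight `N`.
(1) If, for some `m`, the coefficients of `ψ` at all ballot words of length `N` with fewer than `m`
letters `x₀` vanish, then all words of `ψ` have at least `m` letters `x₀`.
(2) If `ψ ≠ 0`, then among the words of `ψ` with the fewest letters `x₀` there is a ballot word, and
the number of its letters `x₀` is less than `N / 2`. -/
theorem result (ψ : A) (h : IsDM ψ) (N : ℕ) (hN : ∀ u, co ψ u ≠ 0 → u.length = N) :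
    (∀ m : ℕ, (∀ u : List (Fin 2), u.length = N → Ballot u → u.count 0 < m → co ψ u = 0) →
      ∀ u, co ψ u ≠ 0 → m ≤ u.count 0) ∧
    (ψ ≠ 0 → ∃ u, co ψ u ≠ 0 ∧ Ballot u ∧ 2 * u.count 0 < N ∧
      ∀ v, co ψ v ≠ 0 → u.count 0 ≤ v.count 0) := by
  classical
  have h1 : ∀ m : ℕ, (∀ u : List (Fin 2), u.length = N → Ballot u → u.count 0 < m → co ψ u = 0) →
      ∀ u, co ψ u ≠ 0 → m ≤ u.count 0 := fun m hm =>
    Pool.Agent.V11252.DMB.layer' h hN fun u a b c => hm u a b c
  refine ⟨h1, fun hne => ?_⟩
  have hex : ∃ m, ∃ u, co ψ u ≠ 0 ∧ u.count 0 = m := by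
    by_contra hcon
    push Not at hcon
    refine hne (al_ext fun u => ?_)
    rw [co_zero]
    by_contra hu
    exact hcon _ u hu rfl
  obtain ⟨u₀, hu₀, hum⟩ := Nat.find_spec hex
  set m := Nat.find hex with hmd
  have hmin : ∀ w, co ψ w ≠ 0 → m ≤ w.count 0 := fun w hw => Nat.find_min' hex ⟨w, hw, rfl⟩
  by_contra hcon
  push Not at hcon
  have h2 := h1 (m + 1) (by
    intro u hu hb hc
    by_contra hne'
    have h3 := Pool.Agent.V11252.DMB.ballot_lt hb
    obtain ⟨v, hv, hlt⟩ := hcon u hne' hb (by omega)
    have := hmin v hv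
    omega) u₀ hu₀
  omega

end Pool.Agent.Results.MP_ec2393_nt.BallotWords
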